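import Mathlib

set_option autoImplicit false

namespace Pool.Agent.H.MP_4aeb90_al

open CategoryTheory MonoidalCategory

abbrev GG (D : Type) (m : ℕ) := (ZMod m → D) × Multiplicative (ZMod m)

variable {D : Type} [Group D] {m : ℕ} [NeZero m]

def rot (t : ZMod m) : GG D m →* GG D m where
  toFun g := (fun i => g.1 (i + t), g.2)
  map_one' := rfl
  map_mul' _ _ := rfl

omit [NeZero m] in
lemma rot_rot (s t : ZMod m) (g : GG D m) : rot s (rot t g) = rot (s + t) g :=
  Prod.ext (funext fun i => by simp [rot, add_assoc]) rfl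

omit [NeZero m] in
@[simp] lemma rot_zero (g : GG D m) : rot 0 g = g := Prod.ext (funext fun i => by simp [rot]) rfl

def zz (x : ZMod m) : GG D m := (1, Multiplicative.ofAdd x)

omit [NeZero m] in
@[simp] lemma rot_zz (t x : ZMod m) : rot t (zz x : GG D m) = zz x := rfl

noncomputable abbrev ψ : AddChar (ZMod m) ℂ := ZMod.stdAddChar

lemma orth (b : ZMod m) : (m : ℂ)⁻¹ * ∑ x : ZMod m, ψ (x * b) = if b = 0 then 1 else 0 := by
  rw [AddChar.sum_mulShift _ (ZMod.isPrimitive_stdAddChar m)]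
  have : (m : ℂ) ≠ 0 := Nat.cast_ne_zero.2 (NeZero.ne m)
  split_ifs <;> simp [this]

abbrev Rp (V : Type*) [Category* V] (D : Type) [Group D] (m : ℕ) := Action V (GG D m)

section
variable {V : Type*} [Category* V]

def a (X : Rp V D m) (g : GG D m) : X.V ⟶ X.V := Action.ρ X g

omit [NeZero m] in
lemma a_mul (X : Rp V D m) (g h : GG D m) : a X h ≫ a X g = a X (g * h) :=
  ((Action.ρ X).map_mul g h).symm

omit [NeZero m] in
@[simp] lemma a_one (X : Rp V D m) : a X 1 = 𝟙 _ := (Action.ρ X).map_one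

omit [NeZero m] in
@[reassoc] lemma a_nat {X Y : Rp V D m} (f : X ⟶ Y) (g : GG D m) :
    a X g ≫ f.hom = f.hom ≫ a Y g := f.comm g

end

variable {V : Type*} [Category* V] [Preadditive V] [Linear ℂ V]

noncomputable def E (X : Rp V D m) (t : ZMod m) : X.V ⟶ X.V :=
  (m : ℂ)⁻¹ • ∑ x : ZMod m, ψ (x * -t) • a X (zz x)

lemma E_eq (X : Rp V D m) (F : ZMod m → (X.V ⟶ X.V))
    (h : ∀ y, a X (zz y) = ∑ t, ψ (y * t) • F t) (s : ZMod m) : E X s = F s := by
  simp only [E, h, Finset.smul_sum, smul_smul, ← AddChar.map_add_eq_mul, ← mul_add]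
  rw [Finset.sum_comm]
  simp only [← Finset.sum_smul, ← Finset.mul_sum, orth, neg_add_eq_zero]
  simp

@[reassoc] lemma E_nat {X Y : Rp V D m} (f : X ⟶ Y) (t : ZMod m) :
    E X t ≫ f.hom = f.hom ≫ E Y t := by
  simp [E, Preadditive.sum_comp, Preadditive.comp_sum, a_nat]

@[reassoc] lemma E_a (X : Rp V D m) (t : ZMod m) (g : GG D m) : a X g ≫ E X t = E X t ≫ a X g := by
  have : ∀ x, zz x * g = g * zz x := fun x => Prod.ext (by simp [zz]) (mul_comm _ _)
  simp [E, Preadditive.sum_comp, Preadditive.comp_sum, a_mul, this]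

lemma E_zz (X : Rp V D m) (t y : ZMod m) : E X t ≫ a X (zz y) = ψ (y * t) • E X t := by
  simp only [E, Preadditive.sum_comp, Linear.smul_comp, a_mul]
  rw [smul_comm (ψ (y * t))]
  congr 1
  rw [Finset.smul_sum]
  refine Fintype.sum_equiv (Equiv.addLeft y) _ _ fun x => ?_
  rw [smul_smul, ← AddChar.map_add_eq_mul]
  congr 2
  · simp only [Equiv.coe_addLeft]; ring
  · exact Prod.ext (by simp [zz]) rfl

lemma sum_E (X : Rp V D m) : ∑ t, E X t = 𝟙 _ := by
  simp only [E, Finset.smul_sum, smul_smul]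
  rw [Finset.sum_comm]
  have : ∀ x : ZMod m, ∑ t, ψ (x * -t) = ∑ t, ψ (t * -x) := fun x =>
    Finset.sum_congr rfl fun t _ => by rw [mul_neg, mul_neg, mul_comm]
  simp only [← Finset.sum_smul, ← Finset.mul_sum, this, orth]
  simp [show (zz 0 : GG D m) = 1 from rfl]

@[reassoc] lemma E_E (X : Rp V D m) (s t : ZMod m) :
    E X s ≫ E X t = if s = t then E X s else 0 := by
  conv_lhs => rw [E.eq_1 X t]
  simp only [Linear.comp_smul, Preadditive.comp_sum, E_zz, smul_smul, ← AddChar.map_add_eq_mul,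
    ← mul_add, ← Finset.sum_smul, orth, neg_add_eq_zero, eq_comm (a := t)]
  split_ifs <;> simp

lemma a_zz (X : Rp V D m) (y : ZMod m) : a X (zz y) = ∑ t, ψ (y * t) • E X t := by
  simp only [← E_zz, ← Preadditive.sum_comp, sum_E, Category.id_comp]

variable [MonoidalCategory V] [MonoidalPreadditive V] [MonoidalLinear ℂ V]

@[reducible] noncomputable def tens (X Y : Rp V D m) : Rp V D m where
  V := X.V ⊗ Y.V
  ρ :=
    { toFun := fun g => (∑ t, (E X t ≫ a X g) ⊗ₘ a Y (rot t g) : X.V ⊗ Y.V ⟶ X.V ⊗ Y.V)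
      map_one' := by simp [← sum_whiskerRight, sum_E]
      map_mul' := fun g h => by
        simp only [End.mul_def, Preadditive.sum_comp, Preadditive.comp_sum,
          tensorHom_comp_tensorHom, Category.assoc, E_a_assoc, E_E_assoc, a_mul, map_mul]
        refine Finset.sum_congr rfl fun t _ => ?_
        rw [Finset.sum_eq_single t] <;> simp +contextual }

lemma a_tens (X Y : Rp V D m) (g : GG D m) :
    a (tens X Y) g = ∑ t, (E X t ≫ a X g) ⊗ₘ a Y (rot t g) := rfl

lemma smul_tensor {U W : V} (c d : ℂ) (f : U ⟶ U) (g : W ⟶ W) :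
    (c • f) ⊗ₘ (d • g) = (c * d) • (f ⊗ₘ g) := by
  simp [MonoidalCategory.tensorHom_def, smul_smul, mul_comm]

lemma E_tens (X Y : Rp V D m) (s : ZMod m) : E (tens X Y) s = ∑ t, E X t ⊗ₘ E Y (s - t) := by
  refine E_eq (tens X Y) (fun s => ∑ t, E X t ⊗ₘ E Y (s - t)) (fun y => ?_) s
  simp only [a_tens, rot_zz, E_zz, a_zz Y, tensor_sum, smul_tensor, Finset.smul_sum]
  rw [Finset.sum_comm (f := fun s t => ψ (y * s) • (E X t ⊗ₘ E Y (s - t)))]
  refine Finset.sum_congr rfl fun t _ => Fintype.sum_equiv (Equiv.addLeft t) _ _ fun u => ?_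
  simp [← AddChar.map_add_eq_mul, mul_add]

@[reducible] noncomputable def one : Rp V D m := ⟨𝟙_ V, 1⟩

omit [NeZero m] in
@[simp] lemma a_unit (g : GG D m) : a (one : Rp V D m) g = 𝟙 _ := rfl

lemma E_one (s : ZMod m) : E (one : Rp V D m) s = if s = 0 then 𝟙 _ else 0 :=
  E_eq one (fun s => if s = 0 then 𝟙 _ else 0) (fun y => by simp) s

noncomputable def tHom {X X' Y Y' : Rp V D m} (f : X ⟶ X') (g : Y ⟶ Y') :
    tens X Y ⟶ tens X' Y' where
  hom := f.hom ⊗ₘ g.hom
  comm h := by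
    show a (tens X Y) h ≫ _ = _ ≫ a (tens X' Y') h
    simp [a_tens, Preadditive.sum_comp, Preadditive.comp_sum, a_nat, E_nat_assoc]

lemma assoc_comm (X Y Z : Rp V D m) (g : GG D m) :
    a (tens (tens X Y) Z) g ≫ (α_ X.V Y.V Z.V).hom =
      (α_ X.V Y.V Z.V).hom ≫ a (tens X (tens Y Z)) g := by
  have : a (tens (tens X Y) Z) g = ∑ t, ∑ u, ((E X t ≫ a X g) ⊗ₘ (E Y u ≫ a Y (rot t g))) ⊗ₘ
      a Z (rot u (rot t g)) := by
    simp only [a_tens, E_tens, Preadditive.sum_comp, Preadditive.comp_sum, sum_tensor,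
      tensorHom_comp_tensorHom, E_E_assoc]
    rw [Finset.sum_comm]
    refine Finset.sum_congr rfl fun t _ => ?_
    refine Fintype.sum_equiv (Equiv.subRight t) _ _ fun s => ?_
    rw [Finset.sum_eq_single t] <;> simp +contextual [rot_rot, eq_comm (a := t)]
  rw [this]
  simp only [a_tens, tensor_sum, Preadditive.sum_comp, Preadditive.comp_sum, associator_naturality]

lemma left_comm (X : Rp V D m) (g : GG D m) :
    a (tens one X) g ≫ (λ_ X.V).hom = (λ_ X.V).hom ≫ a X g := by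
  rw [a_tens, Finset.sum_eq_single 0] <;> simp +contextual [E_one]

lemma right_comm (X : Rp V D m) (g : GG D m) :
    a (tens X one) g ≫ (ρ_ X.V).hom = (ρ_ X.V).hom ≫ a X g := by
  simp only [a_tens, a_unit, ← sum_tensor, ← Preadditive.sum_comp, sum_E, Category.id_comp]
  simp

noncomputable def sig (X : Rp V D m) (g : GG D m) : X.V ⟶ X.V := ∑ t, E X t ≫ a X (rot (-t) g⁻¹)

@[reassoc] lemma sig_E (X : Rp V D m) (g : GG D m) (s : ZMod m) :
    sig X g ≫ E X s = E X s ≫ a X (rot (-s) g⁻¹) := by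
  simp only [sig, Preadditive.sum_comp, Category.assoc, E_a, E_E_assoc]
  rw [Finset.sum_eq_single s] <;> simp +contextual

structure Mate (X : Rp V D m) (W : V) where
  f : (X.V ⟶ X.V) →ₗ[ℂ] (W ⟶ W)
  id : f (𝟙 _) = 𝟙 _
  comp : ∀ u v, f (u ≫ v) = f v ≫ f u

@[reducible] noncomputable def Mate.obj {X : Rp V D m} {W : V} (μ : Mate X W) : Rp V D m where
  V := W
  ρ :=
    { toFun := fun g => μ.f (sig X g)
      map_one' := by simp [sig, sum_E, μ.id]
      map_mul' := fun g h => by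
        rw [End.mul_def, ← μ.comp, sig.eq_1 X h]
        simp only [Preadditive.comp_sum, sig_E_assoc, a_mul]
        simp [sig] }

lemma Mate.E_a {X : Rp V D m} {W : V} (μ : Mate X W) (s : ZMod m) (g : GG D m) :
    E μ.obj s ≫ a μ.obj g = μ.f (E X (-s) ≫ a X (rot s g⁻¹)) := by
  rw [E_eq μ.obj (fun s => μ.f (E X (-s))) fun y => ?_]
  · exact (μ.comp _ _).symm.trans (by rw [sig_E, neg_neg])
  · show μ.f (sig X _) = _
    have : (zz y : GG D m)⁻¹ = zz (-y) := Prod.ext (by simp [zz]) rfl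
    simp only [sig, this, rot_zz, E_zz, map_sum, map_smul]
    exact Fintype.sum_equiv (Equiv.neg _) _ _ fun t => by simp

lemma s1 (X : Rp V D m) (g : GG D m) : ∑ s, a X (rot s g) ≫ E X (-s) ≫ a X (rot s g⁻¹) = 𝟙 _ := by
  simp only [E_a_assoc, a_mul, ← map_mul, inv_mul_cancel, map_one, a_one, Category.comp_id]
  rw [← sum_E]
  exact Fintype.sum_equiv (Equiv.neg _) _ _ fun t => rfl

lemma s2 (X : Rp V D m) (g : GG D m) : ∑ s, (E X (-s) ≫ a X (rot s g⁻¹)) ≫ a X (rot s g) = 𝟙 _ := by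
  simp only [Category.assoc, a_mul, ← map_mul, mul_inv_cancel, map_one, a_one, Category.comp_id]
  rw [← sum_E]
  exact Fintype.sum_equiv (Equiv.neg _) _ _ fun t => rfl

lemma s3 (X : Rp V D m) (g : GG D m) : ∑ s, sig X (rot s g) ≫ E X s ≫ a X g = 𝟙 _ := by
  simp [sig_E_assoc, ← map_inv, rot_rot, a_mul, sum_E]

lemma s4 (X : Rp V D m) (g : GG D m) : ∑ s, (E X s ≫ a X g) ≫ sig X (rot s g) = 𝟙 _ := by
  rw [← sum_E]
  refine Finset.sum_congr rfl fun s _ => ?_
  simp only [sig, Preadditive.comp_sum, Category.assoc, E_a_assoc, E_E_assoc]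
  rw [Finset.sum_eq_single s] <;> simp +contextual [← map_inv, rot_rot, a_mul, eq_comm (a := s)]

end Pool.Agent.H.MP_4aeb90_al
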