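import Mathlib
import Pool.Agent.H.MP_4aeb90_al.A

set_option autoImplicit false

namespace Pool.Agent.H.MP_4aeb90_al

open CategoryTheory MonoidalCategory

def TC (V : Type*) [Category* V] (D : Type) [Group D] (m : ℕ) := Rp V D m

variable {V : Type*} [Category* V] {D : Type} [Group D] {m : ℕ}

instance : Category (TC V D m) := inferInstanceAs (Category (Rp V D m))
instance [Preadditive V] : Preadditive (TC V D m) := inferInstanceAs (Preadditive (Rp V D m))
instance [Preadditive V] [Linear ℂ V] : Linear ℂ (TC V D m) :=
  inferInstanceAs (Linear ℂ (Rp V D m))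

variable [NeZero m] [Preadditive V] [Linear ℂ V] [MonoidalCategory V] [MonoidalPreadditive V]
  [MonoidalLinear ℂ V]

noncomputable instance : MonoidalCategory (TC V D m) where
  tensorObj X Y := tens X Y
  whiskerLeft X _ _ f := ⟨X.V ◁ f.hom, fun g => by
    have := (tHom (𝟙 X) f).comm g
    rwa [show (tHom (𝟙 X) f).hom = X.V ◁ f.hom from id_tensorHom _ _] at this⟩
  whiskerRight f Y := ⟨f.hom ▷ Y.V, fun g => by
    have := (tHom f (𝟙 Y)).comm g
    rwa [show (tHom f (𝟙 Y)).hom = f.hom ▷ Y.V from tensorHom_id _ _] at this⟩
  tensorHom f g := tHom f g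
  tensorUnit := one
  associator X Y Z := Action.mkIso (α_ _ _ _) (assoc_comm X Y Z)
  leftUnitor X := Action.mkIso (λ_ _) (left_comm X)
  rightUnitor X := Action.mkIso (ρ_ _) (right_comm X)
  tensorHom_def f g := Action.Hom.ext (MonoidalCategory.tensorHom_def f.hom g.hom)
  id_tensorHom_id X Y := Action.Hom.ext (id_tensorHom_id X.V Y.V)
  tensorHom_comp_tensorHom f g h k := Action.Hom.ext (tensorHom_comp_tensorHom f.hom g.hom h.hom k.hom)
  whiskerLeft_id X Y := Action.Hom.ext (MonoidalCategory.whiskerLeft_id X.V Y.V)
  id_whiskerRight X Y := Action.Hom.ext (id_whiskerRight X.V Y.V)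
  associator_naturality f g h := Action.Hom.ext (associator_naturality f.hom g.hom h.hom)
  leftUnitor_naturality f := Action.Hom.ext (leftUnitor_naturality f.hom)
  rightUnitor_naturality f := Action.Hom.ext (rightUnitor_naturality f.hom)
  pentagon W X Y Z := Action.Hom.ext (pentagon W.V X.V Y.V Z.V)
  triangle X Y := Action.Hom.ext (triangle X.V Y.V)

instance : MonoidalPreadditive (TC V D m) where
  whiskerLeft_zero := Action.Hom.ext (MonoidalPreadditive.whiskerLeft_zero (C := V))
  zero_whiskerRight := Action.Hom.ext (MonoidalPreadditive.zero_whiskerRight (C := V))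
  whiskerLeft_add f g := Action.Hom.ext (MonoidalPreadditive.whiskerLeft_add f.hom g.hom)
  add_whiskerRight f g := Action.Hom.ext (MonoidalPreadditive.add_whiskerRight f.hom g.hom)

instance : MonoidalLinear ℂ (TC V D m) where
  whiskerLeft_smul X _ _ r f := Action.Hom.ext (MonoidalLinear.whiskerLeft_smul X.V r f.hom)
  smul_whiskerRight r _ _ f X := Action.Hom.ext (MonoidalLinear.smul_whiskerRight r f.hom X.V)

open ExactPairing in
@[reducible] noncomputable def mkPair (X Y : Rp V D m) [ExactPairing X.V Y.V]
    (h1 : ∀ g, η_ X.V Y.V ≫ a (tens X Y) g = η_ X.V Y.V)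
    (h2 : ∀ g, a (tens Y X) g ≫ ε_ X.V Y.V = ε_ X.V Y.V) :
    ExactPairing (C := TC V D m) X Y where
  coevaluation' := ⟨η_ X.V Y.V, fun g => (Category.id_comp _).trans (h1 g).symm⟩
  evaluation' := ⟨ε_ X.V Y.V, fun g => (h2 g).trans (Category.comp_id _).symm⟩
  coevaluation_evaluation' := Action.Hom.ext (coevaluation_evaluation X.V Y.V)
  evaluation_coevaluation' := Action.Hom.ext (evaluation_coevaluation X.V Y.V)

variable [RigidCategory V]

noncomputable def rMate (X : Rp V D m) : Mate X (X.Vᘁ) where
  f :=
    { toFun := fun u => uᘁ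
      map_add' := fun u v => by simp [rightAdjointMate]
      map_smul' := fun c u => by simp [rightAdjointMate] }
  id := rightAdjointMate_id
  comp _ _ := comp_rightAdjointMate

noncomputable def lMate (X : Rp V D m) : Mate X (ᘁX.V) where
  f :=
    { toFun := fun u => ᘁu
      map_add' := fun u v => by simp [leftAdjointMate]
      map_smul' := fun c u => by simp [leftAdjointMate] }
  id := leftAdjointMate_id
  comp _ _ := comp_leftAdjointMate

noncomputable instance : RigidCategory (TC V D m) where
  rightDual X := @HasRightDual.mk _ _ _ X (rMate X).obj (mkPair X (rMate X).obj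
    (fun g => by
      have : ∀ h, a (rMate X).obj h = (sig X h)ᘁ := fun _ => rfl
      simp only [a_tens, this, tensorHom_def', Preadditive.comp_sum,
        coevaluation_comp_rightAdjointMate_assoc, ← comp_whiskerRight]
      rw [← Preadditive.comp_sum, ← sum_whiskerRight, s3]
      simp)
    (fun g => by
      have : ∀ u, (rMate X).f u = uᘁ := fun _ => rfl
      simp only [a_tens, Mate.E_a, this, tensorHom_def', Preadditive.sum_comp, Category.assoc,
        rightAdjointMate_comp_evaluation, ← whiskerLeft_comp_assoc]
      rw [← Preadditive.sum_comp, ← whiskerLeft_sum, s1]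
      simp))
  leftDual X := @HasLeftDual.mk _ _ _ X (lMate X).obj (mkPair (lMate X).obj X
    (fun g => by
      have : ∀ u, (lMate X).f u = ᘁu := fun _ => rfl
      simp only [a_tens, Mate.E_a, this, MonoidalCategory.tensorHom_def, Preadditive.comp_sum,
        coevaluation_comp_leftAdjointMate_assoc, ← MonoidalCategory.whiskerLeft_comp]
      rw [← Preadditive.comp_sum, ← whiskerLeft_sum, s2]
      simp)
    (fun g => by
      have : ∀ h, a (lMate X).obj h = ᘁ(sig X h) := fun _ => rfl
      simp only [a_tens, this, MonoidalCategory.tensorHom_def, Preadditive.sum_comp, Category.assoc,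
        leftAdjointMate_comp_evaluation, ← comp_whiskerRight_assoc]
      rw [← Preadditive.sum_comp, ← sum_whiskerRight]
      simp only [← Category.assoc]
      rw [s4]
      simp))

end Pool.Agent.H.MP_4aeb90_al
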