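import Mathlib

set_option autoImplicit false

namespace Pool.Agent.H.MP_4aeb90_al

open CategoryTheory MonoidalCategory

def tpow {C : Type 1} [Category.{0} C] [MonoidalCategory C] (X : C) : ℕ → C
  | 0 => 𝟙_ C
  | n + 1 => X ⊗ tpow X n

def IsFusion (C : Type 1) [Category.{0} C] [Abelian C] [Limits.HasFiniteBiproducts C] [Linear ℂ C]
    [MonoidalCategory C] : Prop :=
  (∀ X Y : C, FiniteDimensional ℂ (X ⟶ Y)) ∧ Simple (𝟙_ C) ∧
  (∀ X : C, ∃ (n : ℕ) (f : Fin n → C), (∀ i, Simple (f i)) ∧ Nonempty (X ≅ Limits.biproduct f)) ∧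
  ∃ (n : ℕ) (S : Fin n → C), ∀ X : C, Simple X → ∃ i, Nonempty (X ≅ S i)

end Pool.Agent.H.MP_4aeb90_al
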