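import Mathlib

set_option autoImplicit false

namespace Pool.Agent.H.MP_4aeb90_al

open CategoryTheory Limits

variable {C : Type*} [Category* C] [Abelian C] [Linear ℂ C]

lemma retract_lt (fd : ∀ X : C, FiniteDimensional ℂ (X ⟶ X)) {X Y : C} (i : Y ⟶ X) (r : X ⟶ Y)
    (h : i ≫ r = 𝟙 _) (h' : r ≫ i ≠ 𝟙 _) :
    Module.finrank ℂ (Y ⟶ Y) < Module.finrank ℂ (X ⟶ X) := by
  let φ : (Y ⟶ Y) →ₗ[ℂ] (X ⟶ X) := (Linear.leftComp ℂ X r).comp (Linear.rightComp ℂ Y i)
  have k : ∀ g, i ≫ φ g ≫ r = g := fun g => by simp [φ, reassoc_of% h, h]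
  haveI := fd X
  rw [← LinearMap.finrank_range_of_inj (f := φ) fun g g' e => by rw [← k g, e, k]]
  refine Submodule.finrank_lt fun e => ?_
  obtain ⟨g, hg⟩ : 𝟙 X ∈ LinearMap.range φ := e ▸ trivial
  have := k g
  rw [hg, Category.id_comp, h] at this
  subst this
  exact h' (by simpa [φ] using hg)

lemma exists_simple (fd : ∀ X : C, FiniteDimensional ℂ (X ⟶ X)) (inj : ∀ X : C, Injective X)
    (X : C) (h : ¬ IsZero X) : ∃ (S : C) (f : S ⟶ X), Simple S ∧ Mono f := by
  induction hn : Module.finrank ℂ (X ⟶ X) using Nat.strong_induction_on generalizing X with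
  | _ n ih =>
  by_cases s : Simple X
  · exact ⟨X, 𝟙 _, s, inferInstance⟩
  obtain ⟨Y, f, hf, h0, hi⟩ : ∃ (Y : C) (f : Y ⟶ X), Mono f ∧ f ≠ 0 ∧ ¬ IsIso f := by
    by_contra hn
    push Not at hn
    exact s ⟨fun f _ => ⟨fun _ e => h (IsZero.of_epi_eq_zero f e), hn _ f inferInstance⟩⟩
  haveI := inj Y
  obtain ⟨S, g, hS, hg⟩ := ih _ (hn ▸ retract_lt fd f _ (Injective.comp_factorThru (𝟙 Y) f)
    fun e => hi ⟨_, Injective.comp_factorThru (𝟙 Y) f, e⟩) Y (fun z => h0 (z.eq_of_src _ _)) rfl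
  exact ⟨S, g ≫ f, hS, inferInstance⟩

lemma semisimple [HasFiniteBiproducts C] (fd : ∀ X : C, FiniteDimensional ℂ (X ⟶ X))
    (inj : ∀ X : C, Injective X) (X : C) :
    ∃ (n : ℕ) (f : Fin n → C), (∀ i, Simple (f i)) ∧ Nonempty (X ≅ biproduct f) := by
  induction hn : Module.finrank ℂ (X ⟶ X) using Nat.strong_induction_on generalizing X with
  | _ n ih =>
  by_cases h : IsZero X
  · exact ⟨0, Fin.elim0, fun i => i.elim0,
      ⟨h.iso ((IsZero.iff_id_eq_zero _).2 (biproduct.hom_ext _ _ fun j => j.elim0))⟩⟩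
  obtain ⟨S, f, hS, hf⟩ := exists_simple fd inj X h
  haveI := inj S
  let T := ShortComplex.mk f (cokernel.π f) (cokernel.condition f)
  have hT : T.ShortExact := ⟨ShortComplex.exact_cokernel f⟩
  let sp := hT.splittingOfInjective
  obtain ⟨k, g, hg, ⟨e⟩⟩ := ih _ (hn ▸ retract_lt fd sp.s T.g sp.s_g fun e => id_nonzero S (by
    have h1 := sp.id
    rw [e, add_eq_right] at h1
    have h2 := sp.f_r
    change f ≫ sp.r = 𝟙 S at h2
    change sp.r ≫ f = 0 at h1
    rw [← h2, (cancel_mono f).1 (h1.trans zero_comp.symm), comp_zero])) _ rfl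
  refine ⟨k + 1, Fin.cons S g, fun i => by cases i using Fin.cases <;> simp [*], ⟨?_⟩⟩
  refine sp.isoBinaryBiproduct ≪≫ biprod.mapIso (Iso.refl _) e ≪≫
    ⟨biprod.desc (biproduct.ι (Fin.cons S g) 0)
      (biproduct.desc fun i => biproduct.ι (Fin.cons S g) i.succ),
     biproduct.desc fun i => Fin.cases (motive := fun i => (Fin.cons S g : Fin (k + 1) → C) i ⟶ S ⊞ ⨁ g)
      biprod.inl (fun i => biproduct.ι g i ≫ biprod.inr) i, ?_, ?_⟩
  · refine biprod.hom_ext' _ _ ?_ (biproduct.hom_ext' _ _ fun j => ?_)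
    · rw [biprod.inl_desc_assoc]
      exact (biproduct.ι_desc _ _).trans (Category.comp_id _).symm
    · rw [biprod.inr_desc_assoc, biproduct.ι_desc_assoc, Category.comp_id]
      exact biproduct.ι_desc _ _
  · refine biproduct.hom_ext' _ _ fun j => ?_
    rw [biproduct.ι_desc_assoc, Category.comp_id]
    cases j using Fin.cases
    · exact biprod.inl_desc _ _
    · exact (Category.assoc _ _ _).trans (by rw [biprod.inr_desc]; exact biproduct.ι_desc _ _)

lemma finite_simples {G : Type} [Group G] [Finite G] [HasFiniteBiproducts (FDRep ℂ G)] :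
    ∃ (n : ℕ) (S : Fin n → FDRep ℂ G), ∀ X : FDRep ℂ G, Simple X → ∃ i, Nonempty (X ≅ S i) := by
  obtain ⟨n, S, hS, ⟨e⟩⟩ := semisimple (C := FDRep ℂ G) (fun _ => inferInstance)
    (fun _ => inferInstance) (FDRep.of (Representation.leftRegular ℂ G))
  refine ⟨n, S, fun X hX => ?_⟩
  by_contra hn
  push Not at hn
  have z : ∀ f : FDRep.of (Representation.leftRegular ℂ G) ⟶ X, f = 0 := fun f => by
    rw [← cancel_epi e.inv, comp_zero]
    refine biproduct.hom_ext' _ _ fun j => ?_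
    by_contra h
    rw [comp_zero] at h
    haveI := hS j
    haveI := isIso_of_hom_simple h
    exact (hn j).false (asIso (biproduct.ι S j ≫ e.inv ≫ f)).symm
  haveI : Subsingleton (FDRep.of (Representation.leftRegular ℂ G) ⟶ X) :=
    ⟨fun f g => by rw [z f, z g]⟩
  haveI := (FDRep.forget₂HomLinearEquiv (FDRep.of (Representation.leftRegular ℂ G)) X).subsingleton
  haveI : Subsingleton (Rep.leftRegular ℂ G ⟶ (forget₂ (FDRep ℂ G) (Rep ℂ G)).obj X) := this
  have : Subsingleton X :=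
    (Rep.leftRegularHomEquiv ((forget₂ (FDRep ℂ G) (Rep ℂ G)).obj X)).symm.subsingleton
  refine id_nonzero X ?_
  ext x
  exact Subsingleton.elim _ _

end Pool.Agent.H.MP_4aeb90_al
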