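import Mathlib
import Pool.Agent.H.MP_4aeb90_al.B
import Pool.Agent.H.MP_4aeb90_al.Semi
import Pool.Agent.H.MP_4aeb90_al.Defs

set_option autoImplicit false

namespace Pool.Agent.H.MP_4aeb90_al

open CategoryTheory MonoidalCategory

abbrev S3 := Equiv.Perm (Fin 3)

def Yz : S3 →* Matrix (Fin 2) (Fin 2) ℤ where
  toFun σ := Matrix.of fun i j =>
    (if σ j.castSucc = i.castSucc then 1 else 0) - (if σ j.castSucc = 2 then 1 else 0)
  map_one' := by decide
  map_mul' := by decide

lemma Yz_sum : ∑ σ : S3, (Yz σ).trace * (Yz σ⁻¹).trace = 6 := by decide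

abbrev CC (m : ℕ) := TC (FGModuleCat.{0} ℂ) S3 m

variable {m : ℕ} [NeZero m]

noncomputable instance : Abelian (CC m) := inferInstanceAs (Abelian (FDRep ℂ (GG S3 m)))
instance : Limits.HasFiniteBiproducts (CC m) := Abelian.hasFiniteBiproducts
noncomputable instance : RigidCategory (FGModuleCat.{0} ℂ) :=
  BraidedCategory.rigidCategoryOfRightRigidCategory

noncomputable def Xρ : Representation ℂ (GG S3 m) (Fin 2 → ℂ) where
  toFun g := ψ g.2.toAdd • Matrix.toLin' ((Yz (g.1 0)).map (Int.castRingHom ℂ))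
  map_one' := by simp [Module.End.one_eq_id]
  map_mul' g h := by
    rw [Prod.fst_mul, Pi.mul_apply, map_mul, Matrix.map_mul, Matrix.toLin'_mul]
    simp [AddChar.map_add_eq_mul, smul_smul, Module.End.mul_eq_comp,
      LinearMap.smul_comp, LinearMap.comp_smul, mul_comm]

noncomputable def XX : FDRep ℂ (GG S3 m) := FDRep.of Xρ

noncomputable def tr (σ : S3) : ℂ := ((Yz σ).trace : ℤ)

lemma char_X (g : GG S3 m) : XX.character g = ψ g.2.toAdd * tr (g.1 0) := by
  show LinearMap.trace ℂ _ (ψ g.2.toAdd • Matrix.toLin' ((Yz (g.1 0)).map (Int.castRingHom ℂ))) = _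
  rw [map_smul, Matrix.trace_toLin'_eq, tr]
  simp [Matrix.trace]

lemma E_X (t : ZMod m) : E (XX : FDRep ℂ (GG S3 m)) t = if t = 1 then 𝟙 _ else 0 :=
  E_eq XX (fun t => if t = 1 then 𝟙 _ else 0) (fun y => by
    simp only [smul_ite, smul_zero, Finset.sum_ite_eq', Finset.mem_univ, if_true, mul_one]
    ext x
    show Xρ (zz y) x = ψ y • x
    simp [Xρ, zz]
    rfl) t

lemma char_tens (Y : FDRep ℂ (GG S3 m)) (g : GG S3 m) :
    FDRep.character (tens XX Y) g = XX.character g * Y.character (rot 1 g) := by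
  have : a (tens XX Y) g = a XX g ⊗ₘ a Y (rot 1 g) := by
    rw [a_tens, Finset.sum_eq_single 1]
    · rw [E_X, if_pos rfl, Category.id_comp]
    · intro t _ h
      rw [E_X, if_neg h, Limits.zero_comp, MonoidalPreadditive.zero_tensor]
    · simp
  show LinearMap.trace ℂ _ (a (tens XX Y) g).hom.hom = _
  rw [this]
  exact LinearMap.trace_tensorProduct' _ _

noncomputable def XC : CC m := XX

lemma char_pow (n : ℕ) (g : GG S3 m) : FDRep.character (tpow (C := CC m) XC n) g =
    ψ ((n : ZMod m) * g.2.toAdd) * ∏ i ∈ Finset.range n, tr (g.1 i) := by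
  induction n generalizing g with
  | zero =>
    show LinearMap.trace ℂ ℂ LinearMap.id = _
    simp
  | succ n ih =>
    refine (char_tens _ g).trans ?_
    rw [ih, char_X, Finset.prod_range_succ']
    simp only [rot, MonoidHom.coe_mk, OneHom.coe_mk, Nat.cast_add, Nat.cast_one, add_mul, one_mul,
      AddChar.map_add_eq_mul, Nat.cast_zero]
    ring

lemma simple_pow {n : ℕ} (hn : n ≤ m) : Simple (tpow (C := CC m) XC n) := by
  classical
  refine (FDRep.simple_iff_char_is_norm_one (k := ℂ) (G := GG S3 m) _).2 ?_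
  have inj : Set.InjOn (fun i : ℕ => (i : ZMod m)) (Finset.range n) := fun i hi j hj e => by
    have := (ZMod.natCast_eq_natCast_iff' i j m).1 e
    rwa [Nat.mod_eq_of_lt ((Finset.mem_range.1 hi).trans_le hn),
      Nat.mod_eq_of_lt ((Finset.mem_range.1 hj).trans_le hn)] at this
  let F : ZMod m → S3 → ℂ := fun i d =>
    if i ∈ (Finset.range n).image (fun i : ℕ => (i : ZMod m)) then tr d * tr d⁻¹ else 1
  have h1 : ∀ g : GG S3 m, FDRep.character (tpow (C := CC m) XC n) g *
      FDRep.character (tpow (C := CC m) XC n) g⁻¹ = ∏ i, F i (g.1 i) := fun g => by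
    rw [char_pow, char_pow, mul_mul_mul_comm, ← AddChar.map_add_eq_mul, ← Finset.prod_mul_distrib]
    simp only [F]
    rw [Finset.prod_ite_mem, Finset.univ_inter, Finset.prod_image inj]
    simp
  have h2 : ∀ i, ∑ d, F i d = 6 := fun i => by
    simp only [F]
    split_ifs
    · simp only [tr]
      exact_mod_cast Yz_sum
    · simp [Fintype.card_perm, Nat.factorial]
  simp only [h1]
  rw [Fintype.sum_prod_type, Finset.sum_comm]
  simp only [← Fintype.piFinset_univ, ← Finset.prod_univ_sum, h2]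
  simp [Fintype.card_perm, Nat.factorial, mul_comm]

lemma fusion : IsFusion (CC m) :=
  haveI : Limits.HasFiniteBiproducts (FDRep ℂ (GG S3 m)) := Abelian.hasFiniteBiproducts
  ⟨fun X Y : FDRep ℂ (GG S3 m) => (inferInstance : FiniteDimensional ℂ (X ⟶ Y)),
    simple_pow (Nat.zero_le m),
    semisimple (C := FDRep ℂ (GG S3 m)) (fun _ => inferInstance) fun _ => inferInstance,
    finite_simples (G := GG S3 m)⟩

lemma not_inv (Y : CC m) : IsEmpty (XC ⊗ Y ≅ 𝟙_ _) := ⟨fun e => by
  have := (char_tens Y 1).symm.trans (congrFun (FDRep.char_iso (k := ℂ) (G := GG S3 m) e) 1)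
  rw [map_one, FDRep.char_one,
    FDRep.char_one, FDRep.char_one] at this
  have h1 : Module.finrank ℂ (XX : FDRep ℂ (GG S3 m)) = 2 := Module.finrank_fin_fun ℂ
  have h2 : Module.finrank ℂ (𝟙_ (CC m)).V = 1 := Module.finrank_self ℂ
  rw [h1, h2] at this
  norm_cast at this
  omega⟩

end Pool.Agent.H.MP_4aeb90_al
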